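import Pool.Agent.Lib.MP_e81270_lc_Orb.Circuit

/-!
# The adversary argument
-/

set_option autoImplicit false

namespace Pool.Agent.Lib.MP_e81270_lc_Orb

open Pool.Agent.Lib.MP_e81270_lc_LocalExt Pool.Agent.Lib.MP_e81270_lc_Sym Classical Finset Equiv

variable {n m : ℕ} {hn : 0 < n} {K : Finset (Fm n 0)}

/-! ### Trees -/

lemma flip_flip (T : MT n) : T.flip.flip = T := by
  induction T with
  | leaf b => simp [MT.flip]
  | node v c ih => simp [MT.flip, ih]

/-- The trees of the pigeonhole variables. -/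
noncomputable def t0 (c : Ctx n m) : Var n 0 → MT n
  | .inl e => vt c (.inl e)
  | .inr i => i.elim0

/-- The tree of a literal. -/
noncomputable def lt (c : Ctx n m) (l : Var n m × Bool) : MT n :=
  tr (vt c) (fun _ => .leaf true) (lit l)

lemma lt_true (c : Ctx n m) (x : Var n m) : lt c (x, true) = vt c x := rfl

lemma lt_not (c : Ctx n m) (x : Var n m) (b : Bool) : lt c (x, !b) = (lt c (x, b)).flip := by
  cases b with
  | true => rfl
  | false => exact (flip_flip _).symm

/-- The table extends the trees of the gates. -/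
def Base (hn : 0 < n) (K : Finset (Fm n 0)) (c : Ctx n (ng K)) (t : Fm n 0 → MT n) : Prop :=
  ∀ k f, In K (.or k f) → t (.or k f) = vt c (litOf hn K (.or k f)).1

lemma tr_eq_lt (hK : Closed K) {c : Ctx n (ng K)} {t : Fm n 0 → MT n} (ht : Base hn K c t)
    {A : Fm n 0} (hA : In K A) : tr (t0 c) t A = lt c (litOf hn K A) := by
  induction A with
  | var x =>
    cases x with
    | inl e => rfl
    | inr i => exact i.elim0
  | neg A ih =>
    simp only [tr, litOf, lt_not]
    rw [ih (hK.neg' hA)]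
  | or k f _ =>
    obtain ⟨i, hi1, hi2⟩ := litOf_or (hn := hn) hA
    simp only [tr]
    rw [ht k f hA, hi1]
    rfl

/-- The number of nested disjunctions outside `K`. -/
noncomputable def depthK (K : Finset (Fm n 0)) : Fm n 0 → ℕ
  | .var _ => 0
  | .neg A => depthK K A
  | .or k f => if In K (.or k f) then 0 else 1 + univ.sup fun i => depthK K (f i)

lemma depthK_arg {k : ℕ} {f : Fin k → Fm n 0} (hA : ¬ In K (.or k f)) (i : Fin k) :
    depthK K (f i) + 1 ≤ depthK K (.or k f) := by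
  have : depthK K (f i) ≤ univ.sup fun i => depthK K (f i) :=
    Finset.le_sup (f := fun i => depthK K (f i)) (mem_univ i)
  simp only [depthK, if_neg hA]
  omega

lemma tr_congrK {t0' : Var n 0 → MT n} {t t' : Fm n 0 → MT n} {j : ℕ}
    (h : ∀ A : Fm n 0, depthK K A ≤ j → t A = t' A) (A : Fm n 0) (hA : depthK K A ≤ j) :
    tr t0' t A = tr t0' t' A := by
  induction A with
  | var w => rfl
  | neg A ih => simp only [tr]; rw [ih hA]
  | or k f _ => exact h _ hA

lemma tr_depth (hK : Closed K) {c : Ctx n (ng K)} {t : Fm n 0 → MT n} (ht : Base hn K c t)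
    {s : ℕ} (hd : ∀ w, (vt c w).depth ≤ 2 * s) {A : Fm n 0} (hA : In K A) :
    (tr (t0 c) t A).depth ≤ 2 * s := by
  rw [tr_eq_lt (hn := hn) hK ht hA]
  generalize litOf hn K A = l
  obtain ⟨x, b⟩ := l
  cases b with
  | true => exact hd x
  | false =>
    change ((vt c x).flip).depth ≤ _
    rw [depth_flip]
    exact hd x

/-- All rounds of switching. -/
theorem exists_table_orb (hK : Closed K) {c : Ctx n (ng K)} {s : ℕ} (hs : 1 ≤ s)
    (hdc : ∀ w, (vt c w).depth ≤ 2 * s) {L : Set (Fm n 0)} (hLneg : ∀ A, .neg A ∈ L → A ∈ L)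
    (hLor : ∀ k f, .or k f ∈ L → ∀ i, f i ∈ L) (X : Finset (Fm n 0))
    (hX : ∀ k f, .or k f ∈ L → ¬ In K (.or k f) → .or k f ∈ X) (hXc : X.card < 4 ^ s) {d : ℕ}
    (hlv : lv s (d + 1) ≤ n) {ρ₁ : Finset (Edge n)}
    (hρ₁ : IsM ρ₁) (hc₁ : ρ₁.card = n - lv s (d + 1)) :
    ∀ j ≤ d, ∃ (ρ : Finset (Edge n)) (t : Fm n 0 → MT n), IsM ρ ∧ ρ₁ ⊆ ρ ∧
      ρ.card = n - lv s (d + 1 - j) ∧ Base hn K c t ∧
      ∀ (k : ℕ) (f : Fin k → Fm n 0), .or k f ∈ L → ¬ In K (.or k f) → depthK K (.or k f) ≤ j →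
        (t (.or k f)).depth ≤ 2 * s ∧ Good (tr (t0 c) t) ρ (Set.range f) (t (.or k f)) := by
  intro j
  induction j with
  | zero =>
    intro _
    refine ⟨ρ₁, fun A => vt c (litOf hn K A).1, hρ₁, subset_rfl, hc₁, fun _ _ _ => rfl, ?_⟩
    intro k f _ hnK hd
    simp only [depthK, if_neg hnK] at hd
    omega
  | succ j ih =>
    intro hj
    obtain ⟨ρ, t, hρ, hρρ, hc, hb, ht⟩ := ih (by omega)
    -- depth of the trees of the formulas of depth ≤ j
    have hdep : ∀ A ∈ L, depthK K A ≤ j → (tr (t0 c) t A).depth ≤ 2 * s := by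
      intro A
      induction A with
      | var w =>
        intro _ _
        cases w with
        | inl e => exact hdc (.inl e)
        | inr i => exact i.elim0
      | neg A ihA =>
        intro hA hd
        simp only [tr, depth_flip]
        exact ihA (hLneg A hA) hd
      | or k f _ =>
        intro hA hd
        by_cases hin : In K (.or k f)
        · exact tr_depth (hn := hn) hK hb hdc hin
        · exact (ht k f hA hin hd).1
    have e1 : lv s (d + 1 - j) = 16 * (lv s (d + 1 - (j + 1))) ^ 5 := by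
      have : d + 1 - j = (d + 1 - (j + 1)) + 1 := by omega
      rw [this]; rfl
    have hlej : lv s (d + 1 - j) ≤ n := (lv_mono hs (by omega)).trans hlv
    obtain ⟨ρ', hρ', hρρ', hc', hU⟩ := exists_round (T := tr (t0 c) t) hρ hs (le_lv s _ hs)
      (by rw [← e1]; exact hlej) (by rw [← e1]; exact hc)
      (X.filter fun A => A ∈ L ∧ ¬ In K A ∧ depthK K A ≤ j + 1)
      ((card_filter_le _ _).trans_lt hXc) args
      (by
        intro x hx A hA
        obtain ⟨_, hx1, hx2, hx3⟩ := mem_filter.1 hx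
        cases x with
        | var w => simp [args] at hA
        | neg B => simp [args] at hA
        | or k f =>
          obtain ⟨i, rfl⟩ := hA
          apply hdep _ (hLor k f hx1 i)
          have := depthK_arg hx2 i
          omega)
    let t' : Fm n 0 → MT n := fun A =>
      if depthK K A ≤ j then t A else
        if h : A ∈ X.filter (fun A => A ∈ L ∧ ¬ In K A ∧ depthK K A ≤ j + 1)
        then (hU A h).choose else .leaf true
    have htt : ∀ A : Fm n 0, depthK K A ≤ j → tr (t0 c) t A = tr (t0 c) t' A := by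
      intro A hA
      apply tr_congrK (K := K) (j := j) _ A hA
      intro B hB
      simp only [t', if_pos hB]
    refine ⟨ρ', t', hρ', hρρ.trans hρρ', hc', ?_, ?_⟩
    · intro k f hin
      have h0 : depthK K (.or k f) ≤ j := by simp [depthK, if_pos hin]
      simp only [t', if_pos h0]
      exact hb k f hin
    intro k f hmem hin hd
    have hfd : ∀ i, depthK K (f i) ≤ j := by
      intro i
      have := depthK_arg hin i
      omega
    by_cases hdj : depthK K (Fm.or k f) ≤ j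
    · obtain ⟨h1, h2⟩ := ht k f hmem hin hdj
      simp only [t', if_pos hdj]
      refine ⟨h1, (h2.mono hρρ').congr ?_⟩
      rintro _ ⟨i, rfl⟩
      exact htt _ (hfd i)
    · have hm' : Fm.or k f ∈ X.filter (fun A => A ∈ L ∧ ¬ In K A ∧ depthK K A ≤ j + 1) :=
        mem_filter.2 ⟨hX k f hmem hin, hmem, hin, hd⟩
      obtain ⟨h1, h2⟩ := (hU _ hm').choose_spec
      simp only [t', if_neg hdj, dif_pos hm']
      refine ⟨h1, h2.congr ?_⟩
      rintro _ ⟨i, rfl⟩
      exact htt _ (hfd i)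

/-! ### The adversary -/

/-- The data used by the adversary. -/
structure OSetting (hn : 0 < n) (K : Finset (Fm n 0)) (c : Ctx n (ng K)) (ov : Edge n → Vx n)
    (ρ : Finset (Edge n)) (t : Fm n 0 → MT n) (w h : ℕ) (L : Set (Fm n 0)) : Prop where
  circ : c.S = inputs hn K
  closed : Closed K
  ok : c.Ok
  ovinc : ∀ e, inc e (ov e)
  mov : c.Movable ov w
  wpos : 1 ≤ w
  wh : 2 * w ≤ h
  wle : ∀ i, (c.W i).card ≤ w
  sub : c.ρ₀ ⊆ ρ
  isM : IsM ρ
  card : ρ.card + 4 * h ≤ n
  neg : ∀ A, .neg A ∈ L → A ∈ L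
  dep : ∀ A ∈ L, (tr (t0 c) t A).depth ≤ h
  base : Base hn K c t
  good : ∀ k f, .or k f ∈ L → ¬ In K (.or k f) →
    Good (tr (t0 c) t) ρ (Set.range f) (t (.or k f))

variable {c : Ctx n (ng K)} {ov : Edge n → Vx n} {ρ : Finset (Edge n)} {t : Fm n 0 → MT n}
  {w h : ℕ} {L : Set (Fm n 0)} {E : Fin m → Fm n 0}

/-- A true disjunction has a true disjunct, after a small extension of the matching. -/
lemma OSetting.up (st : OSetting hn K c ov ρ t w h L) {k : ℕ} {f : Fin k → Fm n 0}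
    (hL : .or k f ∈ L) {M : Finset (Edge n)} (hM : IsM M) (hρM : ρ ⊆ M) (hcM : M.card + h ≤ n)
    (hr : Runs (t (.or k f)) M true) :
    ∃ M', M ⊆ M' ∧ IsM M' ∧ M'.card ≤ M.card + h ∧ ∃ i, Runs (tr (t0 c) t (f i)) M' true := by
  by_cases hin : In K (.or k f)
  · obtain ⟨i, hi1, hi2⟩ := litOf_or (hn := hn) hin
    rw [st.base k f hin, hi1] at hr
    have hwh := st.wh
    have hz : val c i M := (vt_ext st.ok hM hr).1 rfl
    have hcov : Cvr (c.W i) M := vt_cov hr
    obtain ⟨R', h3R, hR', hcR', l, hl, hlc, hlv⟩ := exists_true_literal st.ok st.wpos st.wle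
      st.ovinc st.mov hM (st.sub.trans hρM) hcov (by omega) hz
    rw [st.circ] at hl
    obtain ⟨j, rfl⟩ := (mem_inputs_of_same hi2 l).1 hl
    refine ⟨R', h3R, hR', by omega, j, ?_⟩
    rw [tr_eq_lt (hn := hn) st.closed st.base (st.closed.or' hin j)]
    exact runs_lit st.ok hR' hlc hlv
  · obtain ⟨_, ⟨j, rfl⟩, hrj⟩ := (st.good k f hL hin M hM hρM).1 hr
    exact ⟨M, subset_rfl, hM, by omega, j, hrj⟩

/-- A false disjunction has no true disjuncts. -/
lemma OSetting.down (st : OSetting hn K c ov ρ t w h L) {k : ℕ} {f : Fin k → Fm n 0}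
    (hL : .or k f ∈ L) {M : Finset (Edge n)} (hM : IsM M) (hρM : ρ ⊆ M)
    (hr : Runs (t (.or k f)) M false) {M' : Finset (Edge n)} (hM' : IsM M') (hMM' : M ⊆ M')
    (i : Fin k) : ¬ Runs (tr (t0 c) t (f i)) M' true := by
  intro hri
  by_cases hin : In K (.or k f)
  · obtain ⟨j, hj1, hj2⟩ := litOf_or (hn := hn) hin
    rw [st.base k f hin, hj1] at hr
    have hz : ¬ val c j M' := by
      intro hv
      have := (vt_ext st.ok hM' (hr.mono hMM')).2 hv
      cases this
    rw [tr_eq_lt (hn := hn) st.closed st.base (st.closed.or' hin i)] at hri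
    obtain ⟨hlc, hlv⟩ := lit_of_runs st.ok hM' hri
    apply hz
    apply val_of_literal st.ok hM' (st.sub.trans (hρM.trans hMM')) _ hlc hlv
    rw [st.circ]
    exact (mem_inputs_of_same hj2 _).2 ⟨i, rfl⟩
  · exact (st.good k f hL hin M hM hρM).2 hr M' hM' hMM' (f i) ⟨i, rfl⟩ hri

theorem no_forced_orb (st : OSetting hn K c ov ρ t w h L) {D : Fin m → Fm n m}
    (hE : ∀ i, E i = subst E (D i)) {N : ℕ} {C : Fin N → List (Fm n m)}
    (hC : ∀ i, Step D {Γ | ∃ s < i, C s = Γ} (C i)) (hL : ∀ i, ∀ A ∈ C i, subst E A ∈ L)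
    (hline : ∀ i, ∃ U : MT n, U.depth ≤ h ∧
      Good (tr (t0 c) t) ρ {B | ∃ A ∈ C i, subst E A = B} U) :
    ∀ i : Fin N, ∀ M, IsM M → ρ ⊆ M → M.card + h ≤ n →
      ¬ ∀ A ∈ C i, FF (tr (t0 c) t) (subst E A) M := by
  intro i
  induction i using WellFoundedLT.induction with
  | _ i ih =>
  intro M hM hρM hcM hall
  have hcard := st.card
  have hwh := st.wh
  have hwpos := st.wpos
  have hok := st.ok
  -- shrink the matching
  obtain ⟨U, hU1, hU2⟩ := hline i
  obtain ⟨M', hMM', hM', hc', b, hr⟩ := exists_runs U hM (by omega)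
  have hb : b = false := by
    cases b with
    | false => rfl
    | true =>
      obtain ⟨_, ⟨A, hA, rfl⟩, hrA⟩ := (hU2 M' hM' (hρM.trans hMM')).1 hr
      exact absurd hrA (hall A hA M' hM' hMM')
  subst hb
  obtain ⟨σ, hσ, hσc, hrσ⟩ := hr.path
  obtain ⟨M₁, hM₁def⟩ : ∃ M₁, M₁ = ρ ∪ σ := ⟨_, rfl⟩
  have hM₁s : M₁ ⊆ M' := by rw [hM₁def]; exact union_subset (hρM.trans hMM') hσ
  have hM₁ : IsM M₁ := hM'.mono hM₁s
  have hρ₁ : ρ ⊆ M₁ := by rw [hM₁def]; exact subset_union_left
  have hc₁ : M₁.card ≤ ρ.card + h := by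
    rw [hM₁def]
    have := card_union_le ρ σ
    omega
  have hall₁ : ∀ A ∈ C i, FF (tr (t0 c) t) (subst E A) M₁ := by
    intro A hA M'' h1 h2
    refine (hU2 M₁ hM₁ hρ₁).2 (hrσ.mono ?_) M'' h1 h2 _ ⟨A, hA, rfl⟩
    rw [hM₁def]; exact subset_union_right
  clear hall hrσ hσc hσ hr hc' hM₁s hM' hMM' hU1 hU2 hcM hρM hM hM₁def
  -- running a tree
  have run : ∀ A ∈ L, ∀ M, IsM M → M.card + h ≤ n → ∃ M', M ⊆ M' ∧ IsM M' ∧
      M'.card ≤ M.card + h ∧ ∃ b, Runs (tr (t0 c) t A) M' b := by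
    intro A hA M hM hc
    have hd := st.dep A hA
    obtain ⟨M', h1, h2, h3, b, h4⟩ := exists_runs (tr (t0 c) t A) hM (by omega)
    exact ⟨M', h1, h2, by omega, b, h4⟩
  have ih' : ∀ Γ, (∃ s < i, C s = Γ) → (∀ A ∈ Γ, subst E A ∈ L) ∧
      ∀ M, IsM M → ρ ⊆ M → M.card + h ≤ n → ¬ ∀ A ∈ Γ, FF (tr (t0 c) t) (subst E A) M := by
    rintro Γ ⟨s, hs, rfl⟩
    exact ⟨hL s, ih s hs⟩
  have hSi := hL i
  have hstep := hC i
  clear ih hline
  generalize C i = Γ₀ at hstep hSi hall₁
  cases hstep with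
  | pigeon p =>
    obtain ⟨e, he, hM₂⟩ := exists_extend hM₁ (by omega) (.inl p)
    refine hall₁ (.var (.inl e)) ?_ (insert e M₁) hM₂ (subset_insert _ _)
      (vt_edge_true hok (mem_insert_self _ _))
    rw [List.mem_ofFn]
    refine ⟨e.2, ?_⟩
    have : e = (p, e.2) := Prod.ext he rfl
    rw [← this]
  | hole q =>
    obtain ⟨e, he, hM₂⟩ := exists_extend hM₁ (by omega) (.inr q)
    refine hall₁ (.var (.inl e)) ?_ (insert e M₁) hM₂ (subset_insert _ _)
      (vt_edge_true hok (mem_insert_self _ _))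
    rw [List.mem_ofFn]
    refine ⟨e.1, ?_⟩
    have : e = (e.1, q) := Prod.ext rfl he
    rw [← this]
  | excl e f hne hsh =>
    have hA := hall₁ (.neg (.var (.inl e))) (by simp)
    have hB := hall₁ (.neg (.var (.inl f))) (by simp)
    have hAS : subst E (.var (.inl e)) ∈ L := st.neg _ (hSi (.neg (.var (.inl e))) (by simp))
    have hBS : subst E (.var (.inl f)) ∈ L := st.neg _ (hSi (.neg (.var (.inl f))) (by simp))
    obtain ⟨M₂, h12, hM₂, hc₂, b, hr⟩ := run _ hAS M₁ hM₁ (by omega)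
    have hb : b = true := by
      cases b with
      | true => rfl
      | false => exact absurd (runs_neg.2 hr) (hA M₂ hM₂ h12)
    obtain ⟨M₃, h23, hM₃, hc₃, b', hr'⟩ := run _ hBS M₂ hM₂ (by omega)
    have hb' : b' = true := by
      cases b' with
      | true => rfl
      | false => exact absurd (runs_neg.2 hr') (hB M₃ hM₃ (h12.trans h23))
    have he : e ∈ M₂ := (vt_edge hok hM₂ hr).1 hb
    have hf : f ∈ M₃ := (vt_edge hok hM₃ hr').1 hb'
    exact hne (hM₃ e (h23 he) f hf hsh)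
  | extLeft j =>
    have hA := hall₁ (.neg (.var (.inr j))) (by simp)
    have hB := hall₁ (D j) (by simp)
    have hAS : E j ∈ L := st.neg _ (hSi (.neg (.var (.inr j))) (by simp))
    obtain ⟨M₂, h12, hM₂, hc₂, b, hr⟩ := run _ hAS M₁ hM₁ (by omega)
    cases b with
    | true =>
      refine hB M₂ hM₂ h12 ?_
      rw [← hE j]
      exact hr
    | false => exact hA M₂ hM₂ h12 (runs_neg.2 hr)
  | extRight j =>
    have hA := hall₁ (.var (.inr j)) (by simp)
    have hB := hall₁ (.neg (D j)) (by simp)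
    have hAS : E j ∈ L := hSi (.var (.inr j)) (by simp)
    obtain ⟨M₂, h12, hM₂, hc₂, b, hr⟩ := run _ hAS M₁ hM₁ (by omega)
    cases b with
    | true => exact hA M₂ hM₂ h12 hr
    | false =>
      refine hB M₂ hM₂ h12 (runs_neg.2 ?_)
      rw [← hE j]
      exact hr
  | middle A =>
    have hA := hall₁ A (by simp)
    have hB := hall₁ (.neg A) (by simp)
    obtain ⟨M₂, h12, hM₂, hc₂, b, hr⟩ := run _ (hSi A (by simp)) M₁ hM₁ (by omega)
    cases b with
    | true => exact hA M₂ hM₂ h12 hr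
    | false => exact hB M₂ hM₂ h12 (runs_neg.2 hr)
  | weak hΓ hsub =>
    exact (ih' _ hΓ).2 M₁ hM₁ hρ₁ (by omega) fun A hA => hall₁ A (hsub hA)
  | @cut A _ h1 h2 =>
    have hAS : subst E A ∈ L := (ih' _ h1).1 A (by simp)
    obtain ⟨M₂, h12, hM₂, hc₂, b, hr⟩ := run _ hAS M₁ hM₁ (by omega)
    cases b with
    | true =>
      refine (ih' _ h2).2 M₂ hM₂ (hρ₁.trans h12) (by omega) fun B hB => ?_
      rcases List.mem_cons.1 hB with rfl | hB
      · exact ff_of_runs (runs_neg.2 hr)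
      · exact (hall₁ B hB).mono h12
    | false =>
      refine (ih' _ h1).2 M₂ hM₂ (hρ₁.trans h12) (by omega) fun B hB => ?_
      rcases List.mem_cons.1 hB with rfl | hB
      · exact ff_of_runs hr
      · exact (hall₁ B hB).mono h12
  | @orIntro k f Γ j h1 =>
    have hAS : .or k (fun i => subst E (f i)) ∈ L := hSi (.or k f) (by simp)
    obtain ⟨M₂, h12, hM₂, hc₂, b, hr⟩ := run _ hAS M₁ hM₁ (by omega)
    have hb : b = false := by
      cases b with
      | false => rfl
      | true => exact absurd hr (hall₁ (.or k f) (by simp) M₂ hM₂ h12)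
    subst hb
    refine (ih' _ h1).2 M₂ hM₂ (hρ₁.trans h12) (by omega) fun B hB => ?_
    rcases List.mem_cons.1 hB with rfl | hB
    · intro M₃ hM₃ h23
      exact st.down hAS hM₂ (hρ₁.trans h12) hr hM₃ h23 j
    · exact (hall₁ B (by simp [hB])).mono h12
  | @norIntro k f Γ h1 =>
    have hAS : .or k (fun i => subst E (f i)) ∈ L := st.neg _ (hSi (.neg (.or k f)) (by simp))
    obtain ⟨M₂, h12, hM₂, hc₂, b, hr⟩ := run _ hAS M₁ hM₁ (by omega)
    have hb : b = true := by
      cases b with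
      | true => rfl
      | false => exact absurd (runs_neg.2 hr) (hall₁ (.neg (.or k f)) (by simp) M₂ hM₂ h12)
    subst hb
    obtain ⟨M₃, h23, hM₃, hc₃, j, hrj⟩ := st.up hAS hM₂ (hρ₁.trans h12) (by omega) hr
    refine (ih' _ (h1 j)).2 M₃ hM₃ (hρ₁.trans (h12.trans h23)) (by omega) fun B hB => ?_
    rcases List.mem_cons.1 hB with rfl | hB
    · exact ff_of_runs (runs_neg.2 hrj)
    · exact (hall₁ B (by simp [hB])).mono (h12.trans h23)
  | @dneg A Γ h1 =>
    refine (ih' _ h1).2 M₁ hM₁ hρ₁ (by omega) fun B hB => ?_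
    rcases List.mem_cons.1 hB with rfl | hB
    · intro M₂ hM₂ h12 hr
      exact hall₁ (.neg (.neg B)) (by simp) M₂ hM₂ h12 (runs_neg.2 (runs_neg.2 hr))
    · exact hall₁ B (by simp [hB])

end Pool.Agent.Lib.MP_e81270_lc_Orb
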