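import Pool.Agent.Lib.MP_e81270_lc_Orb.Defs
import Pool.Agent.Lib.MP_e81270_lc_Sym.Main

/-!
# The circuit of the formulas with few images
-/

set_option autoImplicit false

namespace Pool.Agent.Lib.MP_e81270_lc_Orb

open Pool.Agent.Lib.MP_e81270_lc_LocalExt Pool.Agent.Lib.MP_e81270_lc_Sym Classical Finset Equiv

variable {n m : ℕ}

/-! ### Equality up to order and repetition -/

lemma Same.refl (A : Fm n 0) : Same A A := by
  induction A with
  | var x => simp [Same]
  | neg A ih => simpa [Same] using ih
  | or k f ih => exact ⟨fun i => ⟨i, ih i⟩, fun i => ⟨i, ih i⟩⟩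

lemma Same.symm {A B : Fm n 0} (h : Same A B) : Same B A := by
  induction A generalizing B with
  | var x => cases B <;> simp_all [Same]
  | neg A ih =>
    cases B with
    | neg B => exact ih (B := B) h
    | var x => simp [Same] at h
    | or l g => simp [Same] at h
  | or k f ih =>
    cases B with
    | neg B => simp [Same] at h
    | var x => simp [Same] at h
    | or l g =>
      obtain ⟨h1, h2⟩ := h
      refine ⟨fun j => ?_, fun i => ?_⟩
      · obtain ⟨i, hi⟩ := h2 j
        exact ⟨i, ih i hi⟩
      · obtain ⟨j, hj⟩ := h1 i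
        exact ⟨j, ih i hj⟩

lemma Same.trans {A B C : Fm n 0} (h : Same A B) (h' : Same B C) : Same A C := by
  induction A generalizing B C with
  | var x =>
    cases B with
    | var y =>
      have : x = y := h
      subst this
      exact h'
    | neg B => simp [Same] at h
    | or l g => simp [Same] at h
  | neg A ih =>
    cases B with
    | var y => simp [Same] at h
    | or l g => simp [Same] at h
    | neg B =>
      cases C with
      | var y => simp [Same] at h'
      | or l g => simp [Same] at h'
      | neg C => exact ih (B := B) (C := C) h h'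
  | or k f ih =>
    cases B with
    | var y => simp [Same] at h
    | neg B => simp [Same] at h
    | or l g =>
      cases C with
      | var y => simp [Same] at h'
      | neg C => simp [Same] at h'
      | or l' g' =>
        obtain ⟨h1, h2⟩ := h
        obtain ⟨h3, h4⟩ := h'
        refine ⟨fun i => ?_, fun j => ?_⟩
        · obtain ⟨j, hj⟩ := h1 i
          obtain ⟨j', hj'⟩ := h3 j
          exact ⟨j', ih i hj hj'⟩
        · obtain ⟨i, hi⟩ := h4 j
          obtain ⟨i', hi'⟩ := h2 i
          exact ⟨i', ih i' hi' hi⟩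

instance sameSetoid : Setoid (Fm n 0) where
  r := Same
  iseqv := ⟨Same.refl, Same.symm, Same.trans⟩

lemma Same.permute {A B : Fm n 0} (σ : Perm (Fin (n + 1))) (τ : Perm (Fin n)) (h : Same A B) :
    Same (permute σ τ A) (permute σ τ B) := by
  induction A generalizing B with
  | var x =>
    cases B with
    | var y =>
      have : x = y := h
      subst this
      exact Same.refl _
    | neg B => simp [Same] at h
    | or l g => simp [Same] at h
  | neg A ih =>
    cases B with
    | var y => simp [Same] at h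
    | or l g => simp [Same] at h
    | neg B => exact ih (B := B) h
  | or k f ih =>
    cases B with
    | var y => simp [Same] at h
    | neg B => simp [Same] at h
    | or l g =>
      obtain ⟨h1, h2⟩ := h
      refine ⟨fun i => ?_, fun j => ?_⟩
      · obtain ⟨j, hj⟩ := h1 i
        exact ⟨j, ih i hj⟩
      · obtain ⟨i, hi⟩ := h2 j
        exact ⟨i, ih i hi⟩

lemma permute_one (A : Fm n 0) : permute 1 1 A = A := by
  induction A with
  | var x => cases x with
    | inl e => rfl
    | inr i => exact i.elim0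
  | neg A ih => simp only [permute, ih]
  | or k f ih => simp only [permute, ih]

lemma permute_mul (σ σ' : Perm (Fin (n + 1))) (τ τ' : Perm (Fin n)) (A : Fm n 0) :
    permute (σ * σ') (τ * τ') A = permute σ τ (permute σ' τ' A) := by
  induction A with
  | var x => cases x with
    | inl e => rfl
    | inr i => exact i.elim0
  | neg A ih => simp only [permute, ih]
  | or k f ih => simp only [permute, ih]

lemma depth_permute (σ : Perm (Fin (n + 1))) (τ : Perm (Fin n)) (A : Fm n 0) :
    (permute σ τ A).depth = A.depth := by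
  induction A with
  | var x => rfl
  | neg A ih => simpa only [permute, Fm.depth] using ih
  | or k f ih => simp only [permute, Fm.depth, ih]

lemma Same.depth_eq {A B : Fm n 0} (h : Same A B) : A.depth = B.depth := by
  induction A generalizing B with
  | var x => cases B <;> simp_all [Same, Fm.depth]
  | neg A ih =>
    cases B with
    | neg B => exact ih (B := B) h
    | var x => simp [Same] at h
    | or l g => simp [Same] at h
  | or k f ih =>
    cases B with
    | neg B => simp [Same] at h
    | var x => simp [Same] at h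
    | or l g =>
      obtain ⟨h1, h2⟩ := h
      simp only [Fm.depth]
      congr 1
      apply le_antisymm
      · apply Finset.sup_le
        intro i _
        obtain ⟨j, hj⟩ := h1 i
        rw [ih i hj]
        exact Finset.le_sup (f := fun j => (g j).depth) (mem_univ j)
      · apply Finset.sup_le
        intro j _
        obtain ⟨i, hi⟩ := h2 j
        rw [← ih i hi]
        exact Finset.le_sup (f := fun i => (f i).depth) (mem_univ i)

/-! ### Closed sets of formulas -/

/-- `A` belongs to `K`, up to the order and the repetition of disjuncts. -/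
def In (K : Finset (Fm n 0)) (A : Fm n 0) : Prop := ∃ B ∈ K, Same A B

lemma In.congr {K : Finset (Fm n 0)} {A B : Fm n 0} (h : In K A) (hs : Same A B) : In K B := by
  obtain ⟨C, hC, h1⟩ := h
  exact ⟨C, hC, hs.symm.trans h1⟩

/-- What is needed of a set of formulas. -/
structure Closed (K : Finset (Fm n 0)) : Prop where
  neg : ∀ A, .neg A ∈ K → In K A
  or : ∀ k f, .or k f ∈ K → ∀ i, In K (f i)

lemma Closed.neg' {K : Finset (Fm n 0)} (hK : Closed K) {A : Fm n 0} (h : In K (.neg A)) :
    In K A := by
  obtain ⟨B, hB, hs⟩ := h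
  cases B with
  | var x => simp [Same] at hs
  | or l g => simp [Same] at hs
  | neg B => exact (hK.neg B hB).congr (Same.symm (A := A) (B := B) hs)

lemma Closed.or' {K : Finset (Fm n 0)} (hK : Closed K) {k : ℕ} {f : Fin k → Fm n 0}
    (h : In K (.or k f)) (i : Fin k) : In K (f i) := by
  obtain ⟨B, hB, hs⟩ := h
  cases B with
  | var x => simp [Same] at hs
  | neg B => simp [Same] at hs
  | or l g =>
    obtain ⟨j, hj⟩ := hs.1 i
    exact (hK.or l g hB j).congr hj.symm

/-- Kinds of formulas. -/
abbrev Kind (n : ℕ) := Quotient (sameSetoid (n := n))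

/-- The gates: the kinds of the disjunctions that belong to `K`. -/
noncomputable def gates (K : Finset (Fm n 0)) : Finset (Kind n) :=
  (K.image fun A => (⟦A⟧ : Kind n)).filter fun q => ∃ k f, q = ⟦.or k f⟧

lemma mem_gates {K : Finset (Fm n 0)} {k : ℕ} {f : Fin k → Fm n 0} :
    (⟦.or k f⟧ : Kind n) ∈ gates K ↔ In K (.or k f) := by
  simp only [gates, mem_filter, mem_image]
  constructor
  · rintro ⟨⟨A, hA, h⟩, _⟩
    exact ⟨A, hA, (Quotient.exact h.symm : Same _ _)⟩
  · rintro ⟨A, hA, h⟩
    exact ⟨⟨A, hA, (Quotient.sound (Same.symm h) : _)⟩, k, f, rfl⟩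

/-- The depth of a kind. -/
noncomputable def kdepth (q : Kind n) : ℕ :=
  Quotient.lift (fun A : Fm n 0 => A.depth) (fun _ _ h => Same.depth_eq h) q

lemma exists_enum {α : Type*} (s : Finset α) (r : α → ℕ) :
    ∃ e : {x // x ∈ s} ≃ Fin s.card, ∀ x y, r x.1 < r y.1 → e x < e y := by
  let e₀ : {x // x ∈ s} ≃ Fin s.card := s.equivFin
  let key : {x // x ∈ s} → ℕ ×ₗ Fin s.card := fun x => toLex (r x.1, e₀ x)
  have hkey : Function.Injective key := by
    intro x y hxy
    have h1 : (r x.1, e₀ x) = (r y.1, e₀ y) := toLex.injective hxy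
    exact e₀.injective (Prod.ext_iff.1 h1).2
  let t : Finset (ℕ ×ₗ Fin s.card) := univ.image key
  have ht : t.card = s.card := by
    change (univ.image key).card = _
    rw [card_image_of_injective _ hkey, card_univ, Fintype.card_coe]
  let o : Fin s.card ≃o t := t.orderIsoOfFin ht
  have hmem : ∀ x, key x ∈ t := fun x => mem_image.2 ⟨x, mem_univ _, rfl⟩
  let e₁ : {x // x ∈ s} ≃ {y // y ∈ t} := Equiv.ofBijective (fun x => ⟨key x, hmem x⟩) (by
    constructor
    · intro x y hxy
      exact hkey (congrArg Subtype.val hxy)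
    · rintro ⟨y, hy⟩
      obtain ⟨x, _, rfl⟩ := mem_image.1 hy
      exact ⟨x, rfl⟩)
  refine ⟨e₁.trans o.symm.toEquiv, ?_⟩
  intro x y hxy
  change o.symm (e₁ x) < o.symm (e₁ y)
  rw [o.symm.lt_iff_lt]
  change key x < key y
  exact Prod.Lex.lt_iff.2 (Or.inl hxy)

/-- The number of gates. -/
noncomputable def ng (K : Finset (Fm n 0)) : ℕ := (gates K).card

/-- The enumeration of the gates. -/
noncomputable def enum (K : Finset (Fm n 0)) : {q // q ∈ gates K} ≃ Fin (ng K) :=
  (exists_enum (gates K) kdepth).choose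

lemma enum_lt {K : Finset (Fm n 0)} {x y : {q // q ∈ gates K}} (h : kdepth x.1 < kdepth y.1) :
    enum K x < enum K y :=
  (exists_enum (gates K) kdepth).choose_spec x y h

/-- The literal which represents a formula that belongs to `K`. -/
noncomputable def litOf (hn : 0 < n) (K : Finset (Fm n 0)) : Fm n 0 → Var n (ng K) × Bool
  | .var (.inl e) => (.inl e, true)
  | .var (.inr i) => i.elim0
  | .neg A => ((litOf hn K A).1, !(litOf hn K A).2)
  | .or k f => if h : (⟦.or k f⟧ : Kind n) ∈ gates K then (.inr (enum K ⟨_, h⟩), true)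
      else (.inl (0, ⟨0, hn⟩), true)

variable {hn : 0 < n} {K : Finset (Fm n 0)}

lemma litOf_same {A B : Fm n 0} (h : Same A B) : litOf hn K A = litOf hn K B := by
  induction A generalizing B with
  | var x =>
    cases B with
    | var y =>
      have : x = y := h
      subst this
      rfl
    | neg B => simp [Same] at h
    | or l g => simp [Same] at h
  | neg A ih =>
    cases B with
    | var y => simp [Same] at h
    | or l g => simp [Same] at h
    | neg B =>
      simp only [litOf]
      rw [ih (B := B) h]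
  | or k f ih =>
    cases B with
    | var y => simp [Same] at h
    | neg B => simp [Same] at h
    | or l g =>
      have h1 : (⟦.or k f⟧ : Kind n) = ⟦.or l g⟧ := Quotient.sound h
      simp only [litOf, h1]

/-- A disjunction of the kind of the gate `i`. -/
lemma exists_rep (K : Finset (Fm n 0)) (i : Fin (ng K)) :
    ∃ (k : ℕ) (f : Fin k → Fm n 0), ((enum K).symm i).1 = ⟦.or k f⟧ :=
  (mem_filter.1 ((enum K).symm i).2).2

/-- The inputs of the gates. -/
noncomputable def inputs (hn : 0 < n) (K : Finset (Fm n 0)) (i : Fin (ng K)) :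
    Finset (Var n (ng K) × Bool) :=
  univ.image fun j => litOf hn K ((exists_rep K i).choose_spec.choose j)

lemma mem_inputs_of_same {i : Fin (ng K)} {k : ℕ} {f : Fin k → Fm n 0}
    (h : ((enum K).symm i).1 = ⟦.or k f⟧) (l : Var n (ng K) × Bool) :
    l ∈ inputs hn K i ↔ ∃ j, litOf hn K (f j) = l := by
  have h1 : ((enum K).symm i).1 = ⟦.or _ (exists_rep K i).choose_spec.choose⟧ :=
    (exists_rep K i).choose_spec.choose_spec
  have h2 : Same (.or k f) (.or _ (exists_rep K i).choose_spec.choose) :=
    Quotient.exact (h.symm.trans h1)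
  simp only [inputs, mem_image, mem_univ, true_and]
  constructor
  · rintro ⟨j, rfl⟩
    obtain ⟨j', hj'⟩ := h2.2 j
    exact ⟨j', litOf_same hj'⟩
  · rintro ⟨j, rfl⟩
    obtain ⟨j', hj'⟩ := h2.1 j
    exact ⟨j', (litOf_same hj').symm⟩

/-- The gate of a disjunction. -/
lemma litOf_or {k : ℕ} {f : Fin k → Fm n 0} (h : In K (.or k f)) :
    ∃ i : Fin (ng K), litOf hn K (.or k f) = (.inr i, true) ∧
      ((enum K).symm i).1 = ⟦.or k f⟧ := by
  refine ⟨enum K ⟨_, mem_gates.2 h⟩, ?_, by simp⟩
  simp only [litOf, dif_pos (mem_gates.2 h)]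

lemma kdepth_le {A : Fm n 0} {j : Fin (ng K)} {b : Bool} (h : litOf hn K A = (.inr j, b)) :
    kdepth ((enum K).symm j).1 ≤ A.depth := by
  induction A generalizing b with
  | var x =>
    cases x with
    | inl e => simp [litOf] at h
    | inr i => exact i.elim0
  | neg A ih =>
    simp only [litOf, Prod.mk.injEq] at h
    exact ih (b := (litOf hn K A).2) (Prod.ext h.1 rfl)
  | or k f _ =>
    by_cases hg : (⟦.or k f⟧ : Kind n) ∈ gates K
    · simp only [litOf, dif_pos hg, Prod.mk.injEq, Sum.inr.injEq] at h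
      rw [← h.1, Equiv.symm_apply_apply]
      exact le_rfl
    · simp only [litOf, dif_neg hg, Prod.mk.injEq] at h
      exact absurd h.1 (by simp)

lemma acyc_inputs : Acyc (inputs hn K) := by
  intro i j b hl
  obtain ⟨k, f, hf⟩ := exists_rep K i
  obtain ⟨j', hj'⟩ := (mem_inputs_of_same hf _).1 hl
  have h1 := kdepth_le hj'
  have h2 : (f j').depth ≤ univ.sup fun i => (f i).depth :=
    Finset.le_sup (f := fun i => (f i).depth) (mem_univ j')
  have h3 : kdepth ((enum K).symm i).1 = (Fm.or k f).depth := by rw [hf]; rfl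
  have h4 : kdepth ((enum K).symm j).1 < kdepth ((enum K).symm i).1 := by
    rw [h3]
    simp only [Fm.depth]
    omega
  have h5 := enum_lt h4
  simpa using h5

/-! ### Automorphisms -/

/-- A pair of permutations that preserves `K`. -/
def Pres (K : Finset (Fm n 0)) (σ : Perm (Fin (n + 1))) (τ : Perm (Fin n)) : Prop :=
  ∀ A, In K A → In K (permute σ τ A)

/-- The action on kinds. -/
noncomputable def kmap (σ : Perm (Fin (n + 1))) (τ : Perm (Fin n)) (q : Kind n) : Kind n :=
  Quotient.map (permute σ τ) (fun _ _ h => Same.permute σ τ h) q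

lemma kmap_mk (σ : Perm (Fin (n + 1))) (τ : Perm (Fin n)) (A : Fm n 0) :
    kmap σ τ ⟦A⟧ = ⟦permute σ τ A⟧ := rfl

lemma kmap_inv (σ : Perm (Fin (n + 1))) (τ : Perm (Fin n)) (q : Kind n) :
    kmap σ⁻¹ τ⁻¹ (kmap σ τ q) = q := by
  induction q using Quotient.inductionOn with
  | _ A =>
    rw [kmap_mk, kmap_mk, ← permute_mul, inv_mul_cancel, inv_mul_cancel, permute_one]

lemma kmap_mem {σ : Perm (Fin (n + 1))} {τ : Perm (Fin n)} (h : Pres K σ τ) {q : Kind n}
    (hq : q ∈ gates K) : kmap σ τ q ∈ gates K := by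
  obtain ⟨k, f, rfl⟩ := (mem_filter.1 hq).2
  rw [kmap_mk]
  exact mem_gates.2 (h _ (mem_gates.1 hq))

/-- The action on the gates. -/
noncomputable def gmap {σ : Perm (Fin (n + 1))} {τ : Perm (Fin n)} (h : Pres K σ τ)
    (h' : Pres K σ⁻¹ τ⁻¹) : Perm (Fin (ng K)) :=
  (enum K).symm.trans ((⟨fun q => ⟨kmap σ τ q.1, kmap_mem h q.2⟩,
    fun q => ⟨kmap σ⁻¹ τ⁻¹ q.1, kmap_mem h' q.2⟩,
    fun q => Subtype.ext (kmap_inv σ τ q.1),
    fun q => Subtype.ext (by simpa using kmap_inv σ⁻¹ τ⁻¹ q.1)⟩ :
      {q // q ∈ gates K} ≃ {q // q ∈ gates K}).trans (enum K))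

lemma gmap_symm {σ : Perm (Fin (n + 1))} {τ : Perm (Fin n)} (h : Pres K σ τ)
    (h' : Pres K σ⁻¹ τ⁻¹) (i : Fin (ng K)) :
    ((enum K).symm (gmap h h' i)).1 = kmap σ τ ((enum K).symm i).1 := by
  simp [gmap]

lemma litOf_permute (hK : Closed K) {σ : Perm (Fin (n + 1))} {τ : Perm (Fin n)}
    (h : Pres K σ τ) (h' : Pres K σ⁻¹ τ⁻¹) {A : Fm n 0} (hA : In K A) :
    litOf hn K (permute σ τ A) = rename σ τ (gmap h h') (litOf hn K A) := by
  induction A with
  | var x =>
    cases x with
    | inl e => rfl
    | inr i => exact i.elim0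
  | neg A ih =>
    simp only [permute, litOf]
    rw [ih (hK.neg' hA)]
    rfl
  | or k f _ =>
    obtain ⟨i, hi1, hi2⟩ := litOf_or (hn := hn) hA
    have hA' : In K (.or k fun i => permute σ τ (f i)) := h _ hA
    obtain ⟨j, hj1, hj2⟩ := litOf_or (hn := hn) hA'
    change litOf hn K (.or k fun i => permute σ τ (f i)) = _
    rw [hi1, hj1]
    have h1 := gmap_symm h h' i
    rw [hi2, kmap_mk] at h1
    have h2 : ((enum K).symm j).1 = ((enum K).symm (gmap h h' i)).1 := by
      rw [h1, hj2]; rfl
    have h3 : j = gmap h h' i := (enum K).symm.injective (Subtype.ext h2)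
    rw [h3]
    rfl

lemma rename_injective (σ : Perm (Fin (n + 1))) (τ : Perm (Fin n)) (π : Perm (Fin m)) :
    Function.Injective (rename σ τ π) := by
  intro l l' h
  have h1 : rename σ⁻¹ τ⁻¹ π⁻¹ (rename σ τ π l) = rename σ⁻¹ τ⁻¹ π⁻¹ (rename σ τ π l') := by
    rw [h]
  rw [← rename_mul, ← rename_mul] at h1
  simpa only [inv_mul_cancel, rename_one] using h1

/-- The circuit is invariant. -/
theorem aut_inputs (hK : Closed K) {σ : Perm (Fin (n + 1))} {τ : Perm (Fin n)}
    (h : Pres K σ τ) (h' : Pres K σ⁻¹ τ⁻¹) : Aut (inputs hn K) σ τ (gmap h h') := by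
  intro i l
  obtain ⟨k, f, hf⟩ := exists_rep K i
  have hf' : In K (.or k f) := by
    apply mem_gates.1
    rw [← hf]
    exact ((enum K).symm i).2
  have h1 := gmap_symm h h' i
  rw [hf, kmap_mk] at h1
  change _ = (⟦.or k fun i => permute σ τ (f i)⟧ : Kind n) at h1
  rw [mem_inputs_of_same hf, mem_inputs_of_same h1]
  constructor
  · rintro ⟨j, rfl⟩
    exact ⟨j, litOf_permute hK h h' (hK.or' hf' j)⟩
  · rintro ⟨j, hj⟩
    refine ⟨j, ?_⟩
    rw [litOf_permute hK h h' (hK.or' hf' j)] at hj
    exact rename_injective _ _ _ hj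

end Pool.Agent.Lib.MP_e81270_lc_Orb
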