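import Pool.Agent.Lib.MP_e81270_lc_LocalExt.Defs

/-!
# Formulas with few images

Definitions used in the statement of the hand-in `SymmetricFormulas` of `MP_e81270_lc`, in
addition to those of `Pool.Agent.Lib.MP_e81270_lc_LocalExt.Defs`. Formulas in the pigeonhole
variables only are the elements of `Fm n 0`.
-/

set_option autoImplicit false

namespace Pool.Agent.Lib.MP_e81270_lc_Orb

open Pool.Agent.Lib.MP_e81270_lc_LocalExt

variable {n m : ℕ}

/-- Replace the extension variables by the formulas `E i`. -/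
def subst (E : Fin m → Fm n 0) : Fm n m → Fm n 0
  | .var (.inl e) => .var (.inl e)
  | .var (.inr i) => E i
  | .neg A => .neg (subst E A)
  | .or k f => .or k fun i => subst E (f i)

/-- `B` is a subformula of `A` (possibly `A` itself). -/
inductive Sub : Fm n 0 → Fm n 0 → Prop
  | refl (A : Fm n 0) : Sub A A
  | neg {B A : Fm n 0} : Sub B A → Sub B (.neg A)
  | or {B : Fm n 0} {k : ℕ} {f : Fin k → Fm n 0} (i : Fin k) : Sub B (f i) → Sub B (.or k f)

/-- `A` and `B` are equal up to the order and the repetition of disjuncts. -/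
def Same : Fm n 0 → Fm n 0 → Prop
  | .var x, .var y => x = y
  | .neg A, .neg B => Same A B
  | .or _ f, .or _ g => (∀ i, ∃ j, Same (f i) (g j)) ∧ ∀ j, ∃ i, Same (f i) (g j)
  | _, _ => False

/-- Rename the pigeons by `σ` and the holes by `τ`. -/
def permute (σ : Equiv.Perm (Fin (n + 1))) (τ : Equiv.Perm (Fin n)) : Fm n 0 → Fm n 0
  | .var x => .var (Sum.map (Prod.map σ τ) id x)
  | .neg A => .neg (permute σ τ A)
  | .or k f => .or k fun i => permute σ τ (f i)

/-- The permutations of the pigeons from `P`. -/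
def pigeonPerms (P : Finset (Fin (n + 1))) :
    Set (Equiv.Perm (Fin (n + 1)) × Equiv.Perm (Fin n)) :=
  {g | (∀ p ∉ P, g.1 p = p) ∧ g.2 = 1}

/-- The permutations of the holes from `H`. -/
def holePerms (H : Finset (Fin n)) : Set (Equiv.Perm (Fin (n + 1)) × Equiv.Perm (Fin n)) :=
  {g | g.1 = 1 ∧ ∀ h ∉ H, g.2 h = h}

/-- The formula `A` has at most `T` images under `G`, up to the order and the repetition of
disjuncts. -/
def FewImages (G : Set (Equiv.Perm (Fin (n + 1)) × Equiv.Perm (Fin n))) (T : ℕ) (A : Fm n 0) :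
    Prop :=
  ∃ R : Finset (Fm n 0), R.card ≤ T ∧ ∀ g ∈ G, ∃ B ∈ R, Same (permute g.1 g.2 A) B

/-- Every subformula of `A` has at most `T` images. -/
def Symm (G : Set (Equiv.Perm (Fin (n + 1)) × Equiv.Perm (Fin n))) (T : ℕ) (A : Fm n 0) :
    Prop :=
  ∀ B, Sub B A → FewImages G T B

open Classical in
/-- The largest number of nested disjunctions in `A` which are not symmetric. -/
noncomputable def asymDepth (G : Set (Equiv.Perm (Fin (n + 1)) × Equiv.Perm (Fin n))) (T : ℕ) :
    Fm n 0 → ℕ
  | .var _ => 0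
  | .neg A => asymDepth G T A
  | .or k f =>
    (if Symm G T (.or k f) then 0 else 1) + Finset.univ.sup fun i => asymDepth G T (f i)

end Pool.Agent.Lib.MP_e81270_lc_Orb
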