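import Pool.Agent.Lib.MP_e81270_lc_Orb.Adversary

/-!
# The lower bound for refutations whose formulas have few images
-/

set_option autoImplicit false

namespace Pool.Agent.Lib.MP_e81270_lc_Orb

open Pool.Agent.Lib.MP_e81270_lc_LocalExt Pool.Agent.Lib.MP_e81270_lc_Sym Classical Finset Equiv

variable {n m : ℕ}

/-! ### Groups of permutations -/

/-- `G` is a group. -/
structure IsGrp (G : Set (Perm (Fin (n + 1)) × Perm (Fin n))) : Prop where
  one : (1, 1) ∈ G
  mul : ∀ g ∈ G, ∀ h ∈ G, (g.1 * h.1, g.2 * h.2) ∈ G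
  inv : ∀ g ∈ G, (g.1⁻¹, g.2⁻¹) ∈ G

lemma isGrp_pigeonPerms (P : Finset (Fin (n + 1))) : IsGrp (pigeonPerms P) where
  one := ⟨fun _ _ => rfl, rfl⟩
  mul := by
    rintro g ⟨h1, h2⟩ h ⟨h3, h4⟩
    refine ⟨fun p hp => ?_, ?_⟩
    · change g.1 (h.1 p) = p
      rw [h3 p hp, h1 p hp]
    · change g.2 * h.2 = 1
      rw [h2, h4, one_mul]
  inv := by
    rintro g ⟨h1, h2⟩
    refine ⟨fun p hp => ?_, ?_⟩
    · change g.1⁻¹ p = p
      rw [Perm.inv_eq_iff_eq, h1 p hp]
    · change g.2⁻¹ = 1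
      rw [h2, inv_one]

lemma isGrp_holePerms (H : Finset (Fin n)) : IsGrp (holePerms H) where
  one := ⟨rfl, fun _ _ => rfl⟩
  mul := by
    rintro g ⟨h1, h2⟩ h ⟨h3, h4⟩
    refine ⟨?_, fun p hp => ?_⟩
    · change g.1 * h.1 = 1
      rw [h1, h3, one_mul]
    · change g.2 (h.2 p) = p
      rw [h4 p hp, h2 p hp]
  inv := by
    rintro g ⟨h1, h2⟩
    refine ⟨?_, fun p hp => ?_⟩
    · change g.1⁻¹ = 1
      rw [h1, inv_one]
    · change g.2⁻¹ p = p
      rw [Perm.inv_eq_iff_eq, h2 p hp]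

variable {G : Set (Perm (Fin (n + 1)) × Perm (Fin n))} {T : ℕ}

lemma FewImages.permute (hG : IsGrp G) {A : Fm n 0} (h : FewImages G T A)
    {g : Perm (Fin (n + 1)) × Perm (Fin n)} (hg : g ∈ G) :
    FewImages G T (permute g.1 g.2 A) := by
  obtain ⟨R, hR, h1⟩ := h
  refine ⟨R, hR, fun g' hg' => ?_⟩
  obtain ⟨B, hB, hs⟩ := h1 _ (hG.mul g' hg' g hg)
  refine ⟨B, hB, ?_⟩
  rw [← permute_mul]
  exact hs

/-! ### The set of formulas -/

lemma sub_iff {A B : Fm n 0} : Sub B A ↔ B ∈ subs A := by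
  constructor
  · intro h
    induction h with
    | refl => exact self_mem_subs _
    | neg _ ih => exact mem_insert_of_mem ih
    | or i _ ih =>
      exact mem_insert_of_mem (mem_biUnion.2 ⟨i, mem_univ _, ih⟩)
  · intro h
    induction A with
    | var x =>
      have : B = .var x := by simpa [subs] using h
      subst this
      exact Sub.refl _
    | neg A ih =>
      simp only [subs, mem_insert] at h
      rcases h with rfl | h
      · exact Sub.refl _
      · exact Sub.neg (ih h)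
    | or k f ih =>
      simp only [subs, mem_insert, mem_biUnion, mem_univ, true_and] at h
      rcases h with rfl | ⟨i, hi⟩
      · exact Sub.refl _
      · exact Sub.or i (ih i hi)

lemma Symm.neg {A : Fm n 0} (h : Symm G T (.neg A)) : Symm G T A :=
  fun B hB => h B (Sub.neg hB)

lemma Symm.or {k : ℕ} {f : Fin k → Fm n 0} (h : Symm G T (.or k f)) (i : Fin k) :
    Symm G T (f i) :=
  fun B hB => h B (Sub.or i hB)

variable {N : ℕ} {C : Fin N → List (Fm n m)} {E : Fin m → Fm n 0}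

/-- The subformulas of the refutation. -/
noncomputable def LL (C : Fin N → List (Fm n m)) (E : Fin m → Fm n 0) : Finset (Fm n 0) :=
  univ.biUnion fun i => (C i).toFinset.biUnion fun A => subs (subst E A)

lemma mem_LL {B : Fm n 0} : B ∈ LL C E ↔ ∃ i, ∃ A ∈ C i, Sub B (subst E A) := by
  simp [LL, sub_iff]

lemma LL_neg {A : Fm n 0} (h : .neg A ∈ LL C E) : A ∈ LL C E := by
  obtain ⟨i, B, hB, hs⟩ := mem_LL.1 h
  exact mem_LL.2 ⟨i, B, hB, sub_iff.2 (neg_mem_subs (sub_iff.1 hs))⟩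

lemma LL_or {k : ℕ} {f : Fin k → Fm n 0} (h : .or k f ∈ LL C E) (j : Fin k) :
    f j ∈ LL C E := by
  obtain ⟨i, B, hB, hs⟩ := mem_LL.1 h
  exact mem_LL.2 ⟨i, B, hB, sub_iff.2 (or_mem_subs (sub_iff.1 hs) j)⟩

/-- The images of the symmetric subformulas of the refutation. -/
noncomputable def KK (G : Set (Perm (Fin (n + 1)) × Perm (Fin n))) (T : ℕ)
    (C : Fin N → List (Fm n m)) (E : Fin m → Fm n 0) : Finset (Fm n 0) :=
  ((LL C E).filter fun B => Symm G T B).biUnion fun B =>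
    (univ.filter fun g : Perm (Fin (n + 1)) × Perm (Fin n) => g ∈ G).image fun g =>
      permute g.1 g.2 B

lemma mem_KK {A : Fm n 0} : A ∈ KK G T C E ↔
    ∃ B ∈ LL C E, Symm G T B ∧ ∃ g ∈ G, permute g.1 g.2 B = A := by
  simp only [KK, mem_biUnion, mem_filter, mem_image, mem_univ, true_and]
  constructor
  · rintro ⟨B, ⟨h1, h2⟩, g, h3, h4⟩
    exact ⟨B, h1, h2, g, h3, h4⟩
  · rintro ⟨B, h1, h2, g, h3, h4⟩
    exact ⟨B, ⟨h1, h2⟩, g, h3, h4⟩

lemma in_KK (hG : IsGrp G) {B : Fm n 0} (h1 : B ∈ LL C E) (h2 : Symm G T B) :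
    In (KK G T C E) B :=
  ⟨B, mem_KK.2 ⟨B, h1, h2, _, hG.one, permute_one B⟩, Same.refl B⟩

lemma closed_KK : Closed (KK G T C E) where
  neg := by
    intro A hA
    obtain ⟨B, h1, h2, g, h3, h4⟩ := mem_KK.1 hA
    cases B with
    | var x => simp [permute] at h4
    | or k f => simp [permute] at h4
    | neg B =>
      simp only [permute, Fm.neg.injEq] at h4
      exact ⟨A, mem_KK.2 ⟨B, LL_neg h1, h2.neg, g, h3, h4⟩, Same.refl A⟩
  or := by
    intro k f hA i
    obtain ⟨B, h1, h2, g, h3, h4⟩ := mem_KK.1 hA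
    cases B with
    | var x => simp [permute] at h4
    | neg B => simp [permute] at h4
    | or l f' =>
      simp only [permute, Fm.or.injEq] at h4
      obtain ⟨rfl, h4⟩ := h4
      have h5 := eq_of_heq h4
      have h6 : permute g.1 g.2 (f' i) = f i := congrFun h5 i
      exact ⟨f i, mem_KK.2 ⟨f' i, LL_or h1 i, h2.or i, g, h3, h6⟩, Same.refl _⟩

lemma pres_KK (hG : IsGrp G) {g : Perm (Fin (n + 1)) × Perm (Fin n)} (hg : g ∈ G) :
    Pres (KK G T C E) g.1 g.2 := by
  rintro A ⟨B, hB, hs⟩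
  obtain ⟨B', h1, h2, g', h3, rfl⟩ := mem_KK.1 hB
  refine ⟨permute g.1 g.2 (permute g'.1 g'.2 B'), mem_KK.2 ⟨B', h1, h2, _, hG.mul g hg g' h3,
    permute_mul _ _ _ _ _⟩, hs.permute _ _⟩

variable {hn : 0 < n}

lemma exists_few (hG : IsGrp G) (i : Fin (ng (KK G T C E))) :
    ∃ A, ((enum (KK G T C E)).symm i).1 = ⟦A⟧ ∧ FewImages G T A := by
  have h := (mem_filter.1 ((enum (KK G T C E)).symm i).2).1
  obtain ⟨A, hA, h1⟩ := mem_image.1 h
  obtain ⟨B, h2, h3, g, h4, rfl⟩ := mem_KK.1 hA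
  exact ⟨_, h1.symm, (h3 B (Sub.refl B)).permute hG h4⟩

lemma gmap_fix {K : Finset (Fm n 0)} {σ : Perm (Fin (n + 1))} {τ : Perm (Fin n)}
    (h : Pres K σ τ) (h' : Pres K σ⁻¹ τ⁻¹) {i : Fin (ng K)} {A : Fm n 0}
    (hi : ((enum K).symm i).1 = ⟦A⟧) (hA : Same (permute σ τ A) A) : gmap h h' i = i := by
  have h1 := gmap_symm h h' i
  rw [hi, kmap_mk] at h1
  have h2 : (⟦permute σ τ A⟧ : Kind n) = ⟦A⟧ := Quotient.sound hA
  rw [h2, ← hi] at h1
  exact (enum K).symm.injective (Subtype.ext h1)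

lemma same_shift {σ σ' : Perm (Fin (n + 1))} {τ τ' : Perm (Fin n)} {A : Fm n 0}
    (h : Same (permute σ τ A) (permute σ' τ' A)) :
    Same (permute (σ⁻¹ * σ') (τ⁻¹ * τ') A) A := by
  have h1 := h.permute σ⁻¹ τ⁻¹
  rw [← permute_mul, ← permute_mul, inv_mul_cancel, inv_mul_cancel, permute_one] at h1
  exact h1.symm

/-- The index of the stabiliser of a gate, for pigeons. -/
lemma index_pigeons {P : Finset (Fin (n + 1))} (i : Fin (ng (KK (pigeonPerms P) T C E))) :
    Nat.card (Perm {p // p ∈ P} ⧸ HP (inputs hn (KK (pigeonPerms P) T C E)) P i) ≤ T := by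
  have hG := isGrp_pigeonPerms P
  obtain ⟨A, hA, R, hR, hRA⟩ := exists_few hG i
  have hmem : ∀ σ : Perm {p // p ∈ P},
      ((Perm.ofSubtype σ, 1) : Perm (Fin (n + 1)) × Perm (Fin n)) ∈ pigeonPerms P :=
    fun σ => ⟨fun p hp => Perm.ofSubtype_apply_of_not_mem _ hp, rfl⟩
  choose φ hφ1 hφ2 using fun σ : Perm {p // p ∈ P} => hRA _ (hmem σ)
  have hinj : Function.Injective fun q :
      Perm {p // p ∈ P} ⧸ HP (inputs hn (KK (pigeonPerms P) T C E)) P i =>
      (⟨φ q.out, hφ1 q.out⟩ : {x // x ∈ R}) := by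
    intro q q' hq
    have h1 : φ q.out = φ q'.out := congrArg Subtype.val hq
    have h2 := hφ2 q.out
    rw [h1] at h2
    have h3 := same_shift (h2.trans (hφ2 q'.out).symm)
    have h4 : q.out⁻¹ * q'.out ∈ HP (inputs hn (KK (pigeonPerms P) T C E)) P i := by
      have e1 : (Perm.ofSubtype q.out)⁻¹ * Perm.ofSubtype q'.out =
          Perm.ofSubtype (q.out⁻¹ * q'.out) := by simp
      have e2 : (1 : Perm (Fin n))⁻¹ * 1 = 1 := by simp
      simp only [e1, e2] at h3
      have hp := pres_KK (T := T) (C := C) (E := E) hG (hmem (q.out⁻¹ * q'.out))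
      have hp' := pres_KK (T := T) (C := C) (E := E) hG (hG.inv _ (hmem (q.out⁻¹ * q'.out)))
      have haut := aut_inputs (hn := hn) closed_KK hp hp'
      exact ⟨gmap hp hp', haut, gmap_fix hp hp' hA h3⟩
    have h5 := QuotientGroup.eq.2 h4
    rwa [QuotientGroup.out_eq', QuotientGroup.out_eq'] at h5
  have h6 := Nat.card_le_card_of_injective _ hinj
  rw [Nat.card_eq_fintype_card (α := {x // x ∈ R}), Fintype.card_coe] at h6
  exact h6.trans hR

/-- The index of the stabiliser of a gate, for holes. -/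
lemma index_holes {H : Finset (Fin n)} (i : Fin (ng (KK (holePerms H) T C E))) :
    Nat.card (Perm {h // h ∈ H} ⧸ HH (inputs hn (KK (holePerms H) T C E)) H i) ≤ T := by
  have hG := isGrp_holePerms H
  obtain ⟨A, hA, R, hR, hRA⟩ := exists_few hG i
  have hmem : ∀ τ : Perm {h // h ∈ H},
      ((1, Perm.ofSubtype τ) : Perm (Fin (n + 1)) × Perm (Fin n)) ∈ holePerms H :=
    fun τ => ⟨rfl, fun p hp => Perm.ofSubtype_apply_of_not_mem _ hp⟩
  choose φ hφ1 hφ2 using fun τ : Perm {h // h ∈ H} => hRA _ (hmem τ)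
  have hinj : Function.Injective fun q :
      Perm {h // h ∈ H} ⧸ HH (inputs hn (KK (holePerms H) T C E)) H i =>
      (⟨φ q.out, hφ1 q.out⟩ : {x // x ∈ R}) := by
    intro q q' hq
    have h1 : φ q.out = φ q'.out := congrArg Subtype.val hq
    have h2 := hφ2 q.out
    rw [h1] at h2
    have h3 := same_shift (h2.trans (hφ2 q'.out).symm)
    have h4 : q.out⁻¹ * q'.out ∈ HH (inputs hn (KK (holePerms H) T C E)) H i := by
      have e1 : (Perm.ofSubtype q.out)⁻¹ * Perm.ofSubtype q'.out =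
          Perm.ofSubtype (q.out⁻¹ * q'.out) := by simp
      have e2 : (1 : Perm (Fin (n + 1)))⁻¹ * 1 = 1 := by simp
      simp only [e1, e2] at h3
      have hp := pres_KK (T := T) (C := C) (E := E) hG (hmem (q.out⁻¹ * q'.out))
      have hp' := pres_KK (T := T) (C := C) (E := E) hG (hG.inv _ (hmem (q.out⁻¹ * q'.out)))
      have haut := aut_inputs (hn := hn) closed_KK hp hp'
      exact ⟨gmap hp hp', haut, gmap_fix hp hp' hA h3⟩
    have h5 := QuotientGroup.eq.2 h4
    rwa [QuotientGroup.out_eq', QuotientGroup.out_eq'] at h5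
  have h6 := Nat.card_le_card_of_injective _ hinj
  rw [Nat.card_eq_fintype_card (α := {x // x ∈ R}), Fintype.card_coe] at h6
  exact h6.trans hR

lemma depthK_le (hG : IsGrp G) {A : Fm n 0} (hA : A ∈ LL C E) :
    depthK (KK G T C E) A ≤ asymDepth G T A := by
  induction A with
  | var x => exact le_rfl
  | neg A ih => exact ih (LL_neg hA)
  | or k f ih =>
    by_cases hin : In (KK G T C E) (.or k f)
    · simp [depthK, if_pos hin]
    · have hs : ¬ Symm G T (.or k f) := fun h => hin (in_KK hG hA h)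
      simp only [depthK, if_neg hin, asymDepth, if_neg hs]
      apply Nat.add_le_add_left
      apply Finset.sup_le
      intro i _
      exact (ih i (LL_or hA i)).trans
        (Finset.le_sup (f := fun i => asymDepth G T (f i)) (mem_univ i))

/-- The lower bound for the given data. -/
theorem no_short_orb {D : Fin m → Fm n m} (hE : ∀ i, E i = subst E (D i)) (hG : IsGrp G)
    {c : Ctx n (ng (KK G T C E))} {ov : Edge n → Vx n} {d s : ℕ} (hs : 1 ≤ s)
    (hcS : c.S = inputs hn (KK G T C E)) (hok : c.Ok)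
    (hov : ∀ e, inc e (ov e)) (hmov : c.Movable ov s)
    (hW : ∀ i, (c.W i).card ≤ s) (hρ₀ : IsM c.ρ₀) (hρc : c.ρ₀.card + lv s (d + 1) ≤ n)
    (hR : IsRefutation D C) {X : Finset (Fm n 0)}
    (hX : ∀ i, ∀ A ∈ C i, asymDepth G T (subst E A) ≤ d ∧
      ∀ B, Sub B (subst E A) → Symm G T B ∨ B ∈ X)
    (hcon : N + X.card < 4 ^ s) : False := by
  have hlv : lv s (d + 1) ≤ n := by omega
  have ht0 : ∀ w, (vt c w).depth ≤ 2 * s :=
    vt_depth (by omega) (fun i => (hW i).trans (by omega))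
  -- the first restriction
  obtain ⟨ρ₁, hρ₁⟩ := exts_nonempty hρ₀ (c := n - lv s (d + 1)) (by omega) (by omega)
  obtain ⟨hM₁, hsub₁, hc₁⟩ := mem_exts.1 hρ₁
  obtain ⟨ρ, t, hρ, hρρ, hc, hb, ht⟩ := exists_table_orb (hn := hn) (c := c)
    (L := {A | A ∈ LL C E}) (closed_KK (G := G) (T := T)) hs ht0 (fun A => LL_neg)
    (fun k f h i => LL_or h i) X
    (by
      intro k f hL hin
      obtain ⟨i, A, hA, hs⟩ := mem_LL.1 hL
      rcases (hX i A hA).2 _ hs with h | h
      · exact absurd (in_KK hG hL h) hin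
      · exact h)
    (by omega) hlv hM₁ hc₁ d le_rfl
  have hmem : ∀ i, ∀ A ∈ C i, subst E A ∈ LL C E := fun i A hA =>
    mem_LL.2 ⟨i, A, hA, Sub.refl _⟩
  have hdepth : ∀ A ∈ LL C E, depthK (KK G T C E) A ≤ d := by
    have h1 : ∀ A B : Fm n 0, Sub B A → asymDepth G T B ≤ asymDepth G T A := by
      intro A B h
      induction h with
      | refl => exact le_rfl
      | neg _ ih => exact ih
      | @or k f i _ ih =>
        have h2 : asymDepth G T (f i) ≤ univ.sup fun i => asymDepth G T (f i) :=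
          Finset.le_sup (f := fun i => asymDepth G T (f i)) (mem_univ i)
        simp only [asymDepth]
        omega
    intro A hA
    obtain ⟨i, B, hB, hs⟩ := mem_LL.1 hA
    exact (depthK_le hG hA).trans ((h1 _ _ hs).trans (hX i B hB).1)
  have hdep : ∀ A ∈ LL C E, (tr (t0 c) t A).depth ≤ 2 * s := by
    intro A
    induction A with
    | var w =>
      intro _
      cases w with
      | inl e => exact ht0 (.inl e)
      | inr i => exact i.elim0
    | neg A ih => intro hA; simp only [tr, depth_flip]; exact ih (LL_neg hA)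
    | or k f _ =>
      intro hA
      by_cases hin : In (KK G T C E) (.or k f)
      · exact tr_depth (hn := hn) closed_KK hb ht0 hin
      · exact (ht k f hA hin (hdepth _ hA)).1
  have e1 : d + 1 - d = 0 + 1 := by omega
  have e2 : lv s (d + 1 - d) = 16 * (lv s 0) ^ 5 := by rw [e1]; rfl
  have hle1 : lv s (d + 1 - d) ≤ n := (lv_mono hs (by omega)).trans hlv
  obtain ⟨ρ', hρ', hρρ', hc', hU⟩ := exists_round (T := tr (t0 c) t) hρ hs (le_lv s 0 hs)
    (by rw [← e2]; exact hle1) (by rw [← e2]; exact hc) (univ : Finset (Fin N))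
    (by rw [card_univ, Fintype.card_fin]; omega) (fun i => {B | ∃ A ∈ C i, subst E A = B})
    (by
      rintro i _ _ ⟨A, hA, rfl⟩
      exact hdep _ (hmem i A hA))
  have hl0 : lv s 0 = 8 * s := rfl
  have hle0 : lv s 0 ≤ n := (lv_mono hs (by omega)).trans hlv
  have st : OSetting hn (KK G T C E) c ov ρ' t s (2 * s) {A | A ∈ LL C E} :=
    { circ := hcS
      closed := closed_KK
      ok := hok
      ovinc := hov
      mov := hmov
      wpos := hs
      wh := le_rfl
      wle := hW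
      sub := hsub₁.trans (hρρ.trans hρρ')
      isM := hρ'
      card := by rw [hc']; omega
      neg := fun A => LL_neg
      dep := hdep
      base := hb
      good := fun k f hA hin => ((ht k f hA hin (hdepth _ hA)).2).mono hρρ' }
  obtain ⟨hsteps, i, hi⟩ := hR
  refine no_forced_orb st hE hsteps hmem (fun i => hU i (mem_univ i)) i ρ' hρ' subset_rfl ?_ ?_
  · rw [hc']; omega
  · rw [hi]; simp

/-- The lower bound for permutations of holes. -/
theorem lower_bound_holes_orb (hn : 0 < n) {D : Fin m → Fm n m}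
    (hE : ∀ i, E i = subst E (D i)) {H : Finset (Fin n)} {d s : ℕ} (hs : 1 ≤ s)
    (hR : IsRefutation D C) {X : Finset (Fm n 0)}
    (hX : ∀ i, ∀ A ∈ C i, asymDepth (holePerms H) T (subst E A) ≤ d ∧
      ∀ B, Sub B (subst E A) → Symm (holePerms H) T B ∨ B ∈ X)
    (hlv : lv s (d + 1) ≤ H.card) : 4 ^ s ≤ T + (N + X.card) := by
  by_contra hcon
  push Not at hcon
  obtain ⟨hb1, hb2⟩ := lv_bounds (d := d) hs
  have hHn : H.card ≤ n := by simpa using card_le_univ H
  -- the fixed matching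
  let ρ₀ : Finset (Edge n) := (univ \ H).image fun h => (h.castSucc, h)
  have hmem : ∀ e ∈ ρ₀, e.1 = e.2.castSucc ∧ e.2 ∉ H := by
    intro e he
    obtain ⟨h, hh, rfl⟩ := mem_image.1 he
    exact ⟨rfl, (mem_sdiff.1 hh).2⟩
  have hρM : IsM ρ₀ := by
    intro e he f hf hef
    obtain ⟨he1, _⟩ := hmem e he
    obtain ⟨hf1, _⟩ := hmem f hf
    have h2 : e.2 = f.2 := by
      rcases hef with h | h
      · rw [he1, hf1] at h
        exact Fin.castSucc_injective _ h
      · exact h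
    exact Prod.ext (by rw [he1, hf1, h2]) h2
  have hρc : ρ₀.card = n - H.card := by
    change ((univ \ H).image fun h : Fin n => (h.castSucc, h)).card = _
    rw [card_image_of_injective _ (fun a b hab => (Prod.ext_iff.1 hab).2),
      card_sdiff_of_subset (subset_univ H), card_univ, Fintype.card_fin]
  have hρ2 : ∀ h ∉ H, ∃ e ∈ ρ₀, e.2 = h := fun h hh =>
    ⟨(h.castSucc, h), mem_image.2 ⟨h, mem_sdiff.2 ⟨mem_univ _, hh⟩, rfl⟩, rfl⟩
  have hW : ∀ i, ((holeCtx (inputs hn (KK (holePerms H) T C E)) H ρ₀).W i).card ≤ s := by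
    intro i
    refine le_trans card_image_le ?_
    apply card_outer_le hs (index_holes i) (by omega)
    rw [Fintype.card_coe]
    omega
  exact no_short_orb (c := holeCtx (inputs hn (KK (holePerms H) T C E)) H ρ₀)
    (ov := fun e => Sum.inl e.1) (d := d) hE (isGrp_holePerms H) hs rfl
    (holeCtx_ok acyc_inputs ρ₀) (fun _ => rfl)
    (hole_movable (fun e he => (hmem e he).2) hρ2 hW (by omega)) hW hρM
    (by change ρ₀.card + _ ≤ n; omega) hR hX (by omega)

/-- The lower bound for permutations of pigeons. -/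
theorem lower_bound_pigeons_orb (hn : 0 < n) {D : Fin m → Fm n m}
    (hE : ∀ i, E i = subst E (D i)) {P : Finset (Fin (n + 1))} {d s : ℕ} (hs : 1 ≤ s)
    (hR : IsRefutation D C) {X : Finset (Fm n 0)}
    (hX : ∀ i, ∀ A ∈ C i, asymDepth (pigeonPerms P) T (subst E A) ≤ d ∧
      ∀ B, Sub B (subst E A) → Symm (pigeonPerms P) T B ∨ B ∈ X)
    (hlv : lv s (d + 1) + 1 ≤ P.card) : 4 ^ s ≤ T + (N + X.card) := by
  by_contra hcon
  push Not at hcon
  obtain ⟨hb1, hb2⟩ := lv_bounds (d := d) hs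
  have hPn : P.card ≤ n + 1 := by simpa using card_le_univ P
  -- the fixed matching
  have hcard : (univ \ P).card = n + 1 - P.card := by
    rw [card_sdiff_of_subset (subset_univ P), card_univ, Fintype.card_fin]
  obtain ⟨g⟩ : Nonempty ({p // p ∈ univ \ P} ↪ Fin n) := by
    apply Function.Embedding.nonempty_of_card_le
    rw [Fintype.card_coe, Fintype.card_fin, hcard]
    omega
  let ρ₀ : Finset (Edge n) := univ.image fun p : {p // p ∈ univ \ P} => (p.1, g p)
  have hmem : ∀ e ∈ ρ₀, ∃ p : {p // p ∈ univ \ P}, (p.1, g p) = e := by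
    intro e he
    obtain ⟨p, _, hp⟩ := mem_image.1 he
    exact ⟨p, hp⟩
  have hρM : IsM ρ₀ := by
    intro e he f hf hef
    obtain ⟨p, rfl⟩ := hmem e he
    obtain ⟨q, rfl⟩ := hmem f hf
    have h2 : p = q := by
      rcases hef with h | h
      · exact Subtype.ext h
      · exact g.injective h
    rw [h2]
  have hρc : ρ₀.card = n + 1 - P.card := by
    change (univ.image fun p : {p // p ∈ univ \ P} => (p.1, g p)).card = _
    rw [card_image_of_injective _ (fun a b hab => Subtype.ext (Prod.ext_iff.1 hab).1),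
      card_univ, Fintype.card_coe, hcard]
  have hρ1 : ∀ e ∈ ρ₀, e.1 ∉ P := by
    intro e he
    obtain ⟨p, rfl⟩ := hmem e he
    exact (mem_sdiff.1 p.2).2
  have hρ2 : ∀ p ∉ P, ∃ e ∈ ρ₀, e.1 = p := fun p hp =>
    ⟨(p, g ⟨p, mem_sdiff.2 ⟨mem_univ _, hp⟩⟩),
      mem_image.2 ⟨⟨p, mem_sdiff.2 ⟨mem_univ _, hp⟩⟩, mem_univ _, rfl⟩, rfl⟩
  have hW : ∀ i, ((pigCtx (inputs hn (KK (pigeonPerms P) T C E)) P ρ₀).W i).card ≤ s := by
    intro i
    refine le_trans card_image_le ?_
    apply card_outer_le hs (index_pigeons i) (by omega)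
    rw [Fintype.card_coe]
    omega
  exact no_short_orb (c := pigCtx (inputs hn (KK (pigeonPerms P) T C E)) P ρ₀)
    (ov := fun e => Sum.inr e.2) (d := d) hE (isGrp_pigeonPerms P) hs rfl
    (pigCtx_ok acyc_inputs ρ₀) (fun _ => rfl)
    (pig_movable hρ1 hρ2 hW (by omega)) hW hρM
    (by change ρ₀.card + _ ≤ n; omega) hR hX (by omega)

lemma two_le_lines (hn : 0 < n) {D : Fin m → Fm n m} (hR : IsRefutation D C) : 2 ≤ N := by
  obtain ⟨hC, i, hi⟩ := hR
  have h := hC i
  rw [hi] at h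
  have key : ∀ Γ, (∃ s < i, C s = Γ) → 2 ≤ N := by
    rintro Γ ⟨s, hs, _⟩
    have h1 := i.isLt
    have h2 : s.val < i.val := hs
    omega
  generalize hL : ([] : List (Fm n m)) = L at h
  cases h with
  | pigeon p =>
    have := congrArg List.length hL
    simp at this
    omega
  | hole q =>
    have := congrArg List.length hL
    simp at this
  | excl e f _ _ => cases hL
  | extLeft j => cases hL
  | extRight j => cases hL
  | middle A => cases hL
  | weak h1 _ => exact key _ h1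
  | cut h1 _ => exact key _ h1
  | orIntro j h1 => exact key _ h1
  | norIntro h1 => cases hL
  | dneg h1 => exact key _ h1

/-- The lower bound. -/
theorem main_orb {d q : ℕ} (hn : 0 < n)
    (hGq : (∃ P : Finset (Fin (n + 1)), q ≤ P.card ∧ G = pigeonPerms P) ∨
      ∃ H : Finset (Fin n), q ≤ H.card ∧ G = holePerms H)
    {D : Fin m → Fm n m} (hR : IsRefutation D C) (hE : ∀ i, E i = subst E (D i))
    {X : Finset (Fm n 0)}
    (hX : ∀ i, ∀ A ∈ C i, asymDepth G T (subst E A) ≤ d ∧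
      ∀ B, Sub B (subst E A) → Symm G T B ∨ B ∈ X) :
    (2 : ℝ) ^ ((q : ℝ) ^ ((1 : ℝ) / 5 ^ (d + 1)) / 16) ≤ T + N + X.card := by
  set e : ℕ := 5 ^ (d + 1) with he
  have he1 : 1 ≤ e := Nat.one_le_pow _ _ (by norm_num)
  have hexp : (1 : ℝ) / 5 ^ (d + 1) = ((e : ℕ) : ℝ)⁻¹ := by
    rw [he]; push_cast; rw [one_div]
  rw [hexp]
  have hq0 : (0 : ℝ) ≤ (q : ℝ) := by positivity
  obtain ⟨x, hx⟩ : ∃ x : ℝ, x = (q : ℝ) ^ (((e : ℕ) : ℝ)⁻¹) := ⟨_, rfl⟩
  rw [← hx]
  have hx0 : 0 ≤ x := by rw [hx]; exact Real.rpow_nonneg hq0 _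
  have hxpow : x ^ e = (q : ℝ) := by
    rw [hx]; exact Real.rpow_inv_natCast_pow hq0 (by omega)
  by_cases hx16 : x < 16
  · have h2 : (2 : ℝ) ≤ N := by exact_mod_cast two_le_lines hn hR
    have h1 : (2 : ℝ) ^ (x / 16) ≤ (2 : ℝ) ^ (1 : ℝ) :=
      Real.rpow_le_rpow_of_exponent_le (by norm_num) (by linarith)
    rw [Real.rpow_one] at h1
    have hT0 : (0 : ℝ) ≤ T := by positivity
    have hX0 : (0 : ℝ) ≤ X.card := by positivity
    linarith
  push Not at hx16
  obtain ⟨s, hsdef⟩ : ∃ s : ℕ, s = ⌊x / 16⌋₊ := ⟨_, rfl⟩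
  have hs1 : 1 ≤ s := by
    rw [hsdef]
    apply Nat.le_floor
    push_cast
    linarith
  have hsle : (s : ℝ) ≤ x / 16 := by
    rw [hsdef]; exact Nat.floor_le (by linarith)
  have hslt : x / 16 < s + 1 := by
    rw [hsdef]; exact Nat.lt_floor_add_one _
  have h3 : ((16 * s : ℕ) : ℝ) ^ e ≤ q := by
    rw [← hxpow]
    apply pow_le_pow_left₀ (by positivity)
    push_cast
    linarith
  have h4 : (16 * s) ^ e ≤ q := by exact_mod_cast h3
  have h5 : 2 * lv s (d + 1) ≤ q := by
    rw [Pool.Agent.Lib.MP_e81270_lc_LocalExt.two_mul_lv, ← he]; exact h4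
  have h6 := (lv_bounds (d := d) hs1).2
  have key : 4 ^ s ≤ T + (N + X.card) := by
    rcases hGq with ⟨P, hP, rfl⟩ | ⟨H, hH, rfl⟩
    · exact lower_bound_pigeons_orb hn hE hs1 hR hX (by omega)
    · exact lower_bound_holes_orb hn hE hs1 hR hX (by omega)
  have h7 : (2 : ℝ) ^ (x / 16) ≤ (2 : ℝ) ^ ((s : ℝ) + 1) :=
    Real.rpow_le_rpow_of_exponent_le (by norm_num) hslt.le
  have h8 : (2 : ℝ) ^ ((s : ℝ) + 1) = ((2 ^ (s + 1) : ℕ) : ℝ) := by
    rw [Real.rpow_add (by norm_num), Real.rpow_natCast, Real.rpow_one, pow_succ]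
    push_cast
    ring
  have h9 : 2 ^ (s + 1) ≤ 4 ^ s := by
    have : 2 ^ (s + 1) ≤ 2 ^ (2 * s) := Nat.pow_le_pow_right (by norm_num) (by omega)
    calc 2 ^ (s + 1) ≤ 2 ^ (2 * s) := this
      _ = 4 ^ s := by rw [pow_mul]; norm_num
  have h10 : ((2 ^ (s + 1) : ℕ) : ℝ) ≤ ((T + (N + X.card) : ℕ) : ℝ) := by
    exact_mod_cast h9.trans key
  rw [h8] at h7
  push_cast at h7 h10 ⊢
  linarith

/-! ### Unfolding -/

lemma subst_congr {E E' : Fin m → Fm n 0} {A : Fm n m}
    (h : ∀ j, A.Occurs (.inr j) → E j = E' j) : subst E A = subst E' A := by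
  induction A with
  | var x =>
    cases x with
    | inl e => rfl
    | inr i => exact h i rfl
  | neg A ih => simp only [subst]; rw [ih h]
  | or k f ih =>
    simp only [subst]
    congr 1
    funext i
    exact ih i fun j hj => h j ⟨i, hj⟩

/-- Acyclic extension definitions can be unfolded in exactly one way. -/
theorem existsUnique_unfolding (D : Fin m → Fm n m)
    (hD : ∀ i j, (D i).Occurs (.inr j) → j < i) :
    ∃! E : Fin m → Fm n 0, ∀ i, E i = subst E (D i) := by
  classical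
  let F : (i : Fin m) → ((j : Fin m) → j < i → Fm n 0) → Fm n 0 := fun i r =>
    subst (fun j => if h : j < i then r j h else .or 0 (fun i => i.elim0)) (D i)
  let E : Fin m → Fm n 0 := WellFounded.fix (wellFounded_lt (α := Fin m)) F
  have hE : ∀ i, E i = F i fun j _ => E j := fun i =>
    WellFounded.fix_eq (wellFounded_lt (α := Fin m)) F i
  refine ⟨E, fun i => ?_, ?_⟩
  · rw [hE i]
    apply subst_congr
    intro j hj
    simp only [dif_pos (hD i j hj)]
  · intro E' hE'
    funext i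
    induction i using WellFoundedLT.induction with
    | _ i ih =>
    rw [hE' i, hE i]
    apply subst_congr
    intro j hj
    have hji := hD i j hj
    simp only [dif_pos hji]
    exact ih j hji

end Pool.Agent.Lib.MP_e81270_lc_Orb
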